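import Pool.Agent.EQC.Stmts
import Pool.Agent.Helper51_Equitable.Nice

/-!
# Squad EQC, row PRP (properness)
-/

open SimpleGraph Finset
open Pool.Agent.Helper51_Equitable (edges nbrs vertexSum nb IsEquitableProper Nice)

namespace Pool.Agent.EQC.H75

variable {V : Type} [Fintype V]

theorem fv_le (c : ℕ) (f : Fin 4) : fv c f ≤ 4 * c + 2 := by
  unfold fv
  split_ifs <;> omega

theorem two_le_dg {G : SimpleGraph V} {u v w : V} (h1 : G.Adj u v) (h2 : G.Adj u w) (hne : w ≠ v) :
    2 ≤ dg G u := by
  classical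
  have hsub : ({v, w} : Finset V) ⊆ nbrs G u := by
    intro x hx
    rw [Finset.mem_insert, Finset.mem_singleton] at hx
    rcases hx with rfl | rfl
    · exact Pool.Agent.Helper51_Equitable.mem_nbrs.2 h1
    · exact Pool.Agent.Helper51_Equitable.mem_nbrs.2 h2
  have h := Finset.card_le_card hsub
  rw [Finset.card_pair (Ne.symm hne)] at h
  exact h

theorem one_le_dg {G : SimpleGraph V} {u v : V} (h1 : G.Adj u v) : 1 ≤ dg G u := by
  classical
  have h : 0 < (nbrs G u).card :=
    Finset.card_pos.2 ⟨v, Pool.Agent.Helper51_Equitable.mem_nbrs.2 h1⟩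
  exact h

/-- the part of the sum with the powers -/
noncomputable def Lam (G : SimpleGraph V) (B : ℕ) (κ : Sym2 V → ℕ) (v : V) : ℕ :=
  ∑ e ∈ at' G v, B ^ (κ e + 1)

/-- the part of the sum with the fine labels -/
noncomputable def Phi (G : SimpleGraph V) (c : ℕ) (φ : Sym2 V → Fin 4) (v : V) : ℕ :=
  ∑ e ∈ at' G v, fv c (φ e)

theorem sum_eq (hS : SumStmt) (G : SimpleGraph V) (c B K : ℕ) (κ : Sym2 V → ℕ)
    (φ : Sym2 V → Fin 4) (v : V) :
    vertexSum G (fun e => K + B ^ (κ e + 1) + fv c (φ e)) v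
      = K * dg G v + Lam G B κ v + Phi G c φ v := by
  rw [(hS V G _ v).1, Finset.sum_add_distrib, Finset.sum_add_distrib, Finset.sum_const, smul_eq_mul,
    (hS V G (fun _ => 0) v).2, Nat.mul_comm (dg G v) K]
  rfl

theorem Phi_le (hS : SumStmt) (G : SimpleGraph V) (c : ℕ) (φ : Sym2 V → Fin 4) (v : V) :
    Phi G c φ v ≤ (4 * c + 2) * dg G v := by
  have h : Phi G c φ v ≤ (at' G v).card • (4 * c + 2) :=
    Finset.sum_le_card_nsmul _ _ _ (fun e _ => fv_le c (φ e))
  rw [(hS V G (fun _ => 0) v).2, smul_eq_mul, Nat.mul_comm] at h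
  exact h

theorem Lam_le (hS : SumStmt) (G : SimpleGraph V) (B q : ℕ) (κ : Sym2 V → ℕ) (hB : 1 ≤ B)
    (hκ : ∀ e, κ e < q) (v : V) : Lam G B κ v ≤ B ^ q * dg G v := by
  have h : Lam G B κ v ≤ (at' G v).card • (B ^ q) :=
    Finset.sum_le_card_nsmul _ _ _ (fun e _ => Nat.pow_le_pow_right hB (hκ e))
  rw [(hS V G (fun _ => 0) v).2, smul_eq_mul, Nat.mul_comm] at h
  exact h

theorem Lam_eq (G : SimpleGraph V) (B q : ℕ) (κ : Sym2 V → ℕ) (hκ : ∀ e, κ e < q) (v : V) :
    Lam G B κ v = ∑ k ∈ range q, deg' G κ v k * B ^ (k + 1) := by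
  classical
  unfold Lam
  rw [← Finset.sum_fiberwise_of_maps_to (s := at' G v) (t := range q) (g := κ)
    (fun e _ => Finset.mem_range.2 (hκ e))]
  refine Finset.sum_congr rfl (fun k _ => ?_)
  have h1 : ∑ e ∈ (at' G v).filter (fun e => κ e = k), B ^ (κ e + 1)
      = ∑ _e ∈ (at' G v).filter (fun e => κ e = k), B ^ (k + 1) := by
    refine Finset.sum_congr rfl (fun e he => ?_)
    rw [(Finset.mem_filter.1 he).2]
  rw [h1, Finset.sum_const, smul_eq_mul]
  unfold deg'
  refine congrArg (fun n => n * B ^ (k + 1)) ?_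
  refine congrArg Finset.card ?_
  ext e
  rw [Finset.mem_filter]
  try rw [Finset.mem_filter]

theorem deg'_le (hS : SumStmt) (G : SimpleGraph V) (κ : Sym2 V → ℕ) (v : V) (k : ℕ) :
    deg' G κ v k ≤ dg G v := by
  rw [← (hS V G (fun _ => 0) v).2]
  unfold deg'
  exact Finset.card_filter_le _ _

theorem deg'_zero (G : SimpleGraph V) (q : ℕ) (κ : Sym2 V → ℕ) (hκ : ∀ e, κ e < q) (v : V) (k : ℕ)
    (hk : q ≤ k) : deg' G κ v k = 0 := by
  unfold deg'
  rw [Finset.card_eq_zero, Finset.filter_eq_empty_iff]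
  intro e _ h
  have := hκ e
  omega

/-- **PRP**. -/
theorem prp (hS : SumStmt) (hD : DigStmt) : PrpStmt := by
  classical
  intro V _ G c D q B K κ φ hG hD1 hB hK hκ hlow hcomp u v huv
  have hDB : D ≤ D * (4 * c + 3) := Nat.le_mul_of_pos_right D (by omega)
  have hB1 : 1 ≤ B := by omega
  have hK1 : 1 ≤ K := by
    refine le_trans ?_ hK
    exact Nat.mul_pos (by omega) (by omega)
  -- strict case
  have hstrict : ∀ u v : V, G.Adj u v → dg G u < dg G v →
      vertexSum G (fun e => K + B ^ (κ e + 1) + fv c (φ e)) u ≠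
      vertexSum G (fun e => K + B ^ (κ e + 1) + fv c (φ e)) v := by
    intro u v huv hlt
    by_cases hc : Comp G D u v
    · exact hcomp u v hc
    · have e1 := sum_eq hS G c B K κ φ u
      have e2 := sum_eq hS G c B K κ φ v
      have p1 := Phi_le hS G c φ u
      have l1 := Lam_le hS G B q κ hB1 hκ u
      have h1 : vertexSum G (fun e => K + B ^ (κ e + 1) + fv c (φ e)) u
          ≤ K * dg G u + (B ^ q + (4 * c + 2)) * dg G u := by
        rw [e1, Nat.add_mul]
        omega
      have h2 : K * dg G v ≤ vertexSum G (fun e => K + B ^ (κ e + 1) + fv c (φ e)) v := by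
        rw [e2]
        omega
      by_cases hu : Hi G D u
      · have hu' : D ≤ dg G u := hu
        have hv : Hi G D v := le_trans hu' hlt.le
        have h3 : 2 * dg G u < dg G v := by
          by_contra hcon
          exact hc ⟨huv, hu, hv, by omega, by omega⟩
        have h4 : (B ^ q + (4 * c + 2)) ≤ K := by
          refine le_trans ?_ hK
          refine le_trans ?_ (Nat.le_mul_of_pos_left (B ^ q + 4 * c + 3) (Nat.succ_pos D))
          omega
        have h5 : (B ^ q + (4 * c + 2)) * dg G u ≤ K * dg G u := Nat.mul_le_mul_right _ h4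
        have h6 : K * (2 * dg G u + 1) ≤ K * dg G v := Nat.mul_le_mul_left K h3
        have h7 : K * (2 * dg G u + 1) = K * dg G u + K * dg G u + K := by ring
        omega
      · have hu' : dg G u < D := by
          unfold Hi at hu
          omega
        have h4 : (B ^ q + (4 * c + 2)) * dg G u < K := by
          refine lt_of_lt_of_le ?_ hK
          have h5 : (B ^ q + (4 * c + 2)) * dg G u ≤ (B ^ q + (4 * c + 2)) * D :=
            Nat.mul_le_mul_left _ hu'.le
          have h6 : (D + 1) * (B ^ q + 4 * c + 3)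
              = (B ^ q + (4 * c + 2)) * D + (D + 1) + (B ^ q + (4 * c + 2)) := by ring
          omega
        have h5 : K * (dg G u + 1) ≤ K * dg G v := Nat.mul_le_mul_left K hlt
        have h6 : K * (dg G u + 1) = K * dg G u + K := by ring
        omega
  rcases lt_trichotomy (dg G u) (dg G v) with h | h | h
  · exact hstrict u v huv h
  · by_cases hu : Hi G D u
    · have hu' : D ≤ dg G u := hu
      have hv : Hi G D v := by
        unfold Hi
        omega
      exact hcomp u v ⟨huv, hu, hv, by omega, by omega⟩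
    · have hu' : dg G u < D := by
        unfold Hi at hu
        omega
      have hn2 : 2 ≤ dg G u := by
        rcases hG.exists_other huv with ⟨w, hw, huw⟩ | ⟨w, hw, hvw⟩
        · exact two_le_dg huv huw hw
        · rw [h]
          exact two_le_dg huv.symm hvw hw
      obtain ⟨k, hk⟩ := hlow u v huv h hu hn2
      intro heq
      rw [sum_eq hS, sum_eq hS, h] at heq
      have p1 := Phi_le hS G c φ u
      have p2 := Phi_le hS G c φ v
      rw [h] at p1
      have h3 : (4 * c + 2) * dg G v ≤ D * (4 * c + 3) := by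
        rw [Nat.mul_comm D]
        exact Nat.mul_le_mul (by omega) (by omega)
      have hl1 : Lam G B κ u < Lam G B κ v + B := by omega
      have hl2 : Lam G B κ v < Lam G B κ u + B := by omega
      rw [Lam_eq G B q κ hκ u, Lam_eq G B q κ hκ v] at hl1 hl2
      have hall := hD q B (deg' G κ u) (deg' G κ v)
        (fun j _ => lt_of_le_of_lt (deg'_le hS G κ u j) (by omega))
        (fun j _ => lt_of_le_of_lt (deg'_le hS G κ v j) (by omega)) hl1 hl2
      apply hk
      rcases Nat.lt_or_ge k q with hkq | hkq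
      · exact hall k hkq
      · rw [deg'_zero G q κ hκ u k hkq, deg'_zero G q κ hκ v k hkq]
  · exact fun heq => hstrict v u huv.symm h heq.symm

end Pool.Agent.EQC.H75
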